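import Mathlib
import Pool.Agent.Helper52.Hemi.Goals2

set_option autoImplicit false
set_option linter.unusedSectionVars false

open Classical

namespace Pool.Agent.Helper40.Hemi

open Pool.Agent.Helper52.Hemi

variable {k F K : Type} [Field k] [Fintype k] [Field F] [Fintype F] [Field K] [Fintype K]
  [Algebra k F] [Algebra F K] [Algebra k K] [IsScalarTower k F K]

variable (c : Ctx k F K)

include c in
theorem norm_F_mul (l : F) {s : K} (hs : s ∈ CC k K) :
    Algebra.norm F (algebraMap F K l * s) = l ^ 3 := by
  rw [map_mul, c.CC_norm hs, mul_one, Algebra.norm_algebraMap, c.finK]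

include c in
theorem norm_zero' : Algebra.norm F (0 : K) = 0 := by
  have h := norm_F_mul c 0 c.one_mem_CC
  rwa [map_zero, zero_mul, zero_pow (by norm_num)] at h

include c in
theorem unique_s {s s' : K} (hs : s ∈ CC k K) (hs' : s' ∈ CC k K) {l l' : F} (hl : l ≠ 0)
    (h : algebraMap F K l * s = algebraMap F K l' * s') : s = s' := by
  have h1 := norm_F_mul c l hs
  rw [h, norm_F_mul c l' hs'] at h1
  have h2 : (l' - l) ^ 3 = 0 := by
    linear_combination h1 + (- l' ^ 2 * l + l' * l ^ 2) * c.three_F
  have h3 : l' = l := sub_eq_zero.1 (by simpa using h2)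
  rw [h3] at h
  exact mul_left_cancel₀ ((map_ne_zero _).2 hl) h

include c in
theorem hh_s_s {s : K} (hs : s ∈ CC k K) : hh k F K s s = 0 := by
  have h := c.hh_CC hs 1 1
  rwa [mul_one, c.hh_one_one] at h

include c in
theorem hh_k_left (u : k) (x y : K) : hh k F K (algebraMap k K u * x) y =
    algebraMap k F u * hh k F K x y := by
  rw [IsScalarTower.algebraMap_apply k F K, hh_smul_left]

theorem ph_inv_cj {l : F} (hl : l ≠ 0) : c.ph (cj k F l)⁻¹ = c.ph l := by
  have h1 := c.normF_formula l
  have hcj : cj k F l ≠ 0 := (map_ne_zero _).2 hl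
  have h2 : Algebra.norm k l ≠ 0 := by
    intro h
    rw [h, map_zero] at h1
    exact (mul_ne_zero hl hcj) h1.symm
  rw [← c.ph_k h2 (cj k F l)⁻¹, h1, mul_assoc, mul_inv_cancel₀ hcj, mul_one]

theorem claim (L : Finset K) (h0 : (0 : K) ∈ L) (hadd : ∀ x ∈ L, ∀ y ∈ L, x + y ∈ L)
    (hsmul : ∀ u : k, ∀ x ∈ L, algebraMap k K u * x ∈ L) (hcard : L.card = Fintype.card k ^ 2)
    (hiso : ∀ x ∈ L, hh k F K x x = 0) {s : K} (hs : s ∈ CC k K) :
    ∑ x ∈ L, c.ph (hh k F K x s) = - (Fintype.card k : ℤ) *
      ∑ x ∈ L.erase 0, if (∃ l : F, x = algebraMap F K l * s) then c.ph (Algebra.norm F x)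
        else 0 := by
  have hneg : ∀ x ∈ L, -x ∈ L := by
    intro x hx
    have := hsmul (-1) x hx
    rwa [map_neg, map_one, neg_one_mul] at this
  have hsub : ∀ x ∈ L, ∀ y ∈ L, x - y ∈ L := by
    intro x hx y hy
    rw [sub_eq_add_neg]
    exact hadd x hx _ (hneg y hy)
  have hpol : ∀ x ∈ L, ∀ y ∈ L, ∃ u : k, hh k F K x y = algebraMap k F u * c.δ := by
    intro x hx y hy
    apply c.exists_δ
    have h1 := hiso (x + y) (hadd x hx y hy)
    rw [hh_add_left, hh_add_right, hh_add_right, hiso x hx, hiso y hy, ← c.hh_symm x y] at h1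
    linear_combination h1
  have hlin : ∀ x y : K, hh k F K (x - y) s = hh k F K x s - hh k F K y s := by
    intro x y
    rw [eq_sub_iff_add_eq, ← hh_add_left, sub_add_cancel]
  have hiff : ∀ x ∈ L, (∃ l : F, x = algebraMap F K l * s) ↔ hh k F K x s = 0 := by
    intro x hx
    constructor
    · rintro ⟨l, rfl⟩
      rw [hh_smul_left, hh_s_s c hs, mul_zero]
    · intro h
      exact c.witt (hiso x hx) hs h
  have hR : ∑ x ∈ L.erase 0, (if (∃ l : F, x = algebraMap F K l * s) then
      c.ph (Algebra.norm F x) else 0) =
      ∑ x ∈ L.erase 0, (if hh k F K x s = 0 then c.ph (Algebra.norm F x) else 0) := by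
    apply Finset.sum_congr rfl
    intro x hx
    simp only [hiff x (Finset.mem_of_mem_erase hx)]
  rw [hR]
  by_cases hcase : ∀ x ∈ L, hh k F K x s = 0 → x = 0
  · -- the map is injective
    have hinj : Set.InjOn (fun x => hh k F K x s) (L : Set K) := by
      intro x hx y hy h
      have h2 := hcase (x - y) (hsub x hx y hy) (by rw [hlin]; exact sub_eq_zero.2 h)
      exact sub_eq_zero.1 h2
    have himg : L.image (fun x => hh k F K x s) = Finset.univ := by
      apply Finset.eq_univ_of_card
      rw [Finset.card_image_of_injOn hinj, hcard, c.card_F]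
    have h1 : ∑ x ∈ L, c.ph (hh k F K x s) = 0 := by
      rw [← Finset.sum_image (f := fun t => c.ph t) (g := fun x => hh k F K x s) hinj, himg,
        c.sum_ph]
    rw [h1]
    have h2 : ∑ x ∈ L.erase 0, (if hh k F K x s = 0 then c.ph (Algebra.norm F x) else 0) = 0 := by
      apply Finset.sum_eq_zero
      intro x hx
      rw [if_neg]
      intro h
      exact Finset.ne_of_mem_erase hx (hcase x (Finset.mem_of_mem_erase hx) h)
    rw [h2, mul_zero]
  · push Not at hcase
    obtain ⟨x0, hx0, hx0s, hx00⟩ := hcase
    obtain ⟨l, hl⟩ := c.witt (hiso x0 hx0) hs hx0s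
    have hl0 : l ≠ 0 := by
      rintro rfl
      rw [map_zero, zero_mul] at hl
      exact hx00 hl
    have hcj : cj k F l ≠ 0 := (map_ne_zero _).2 hl0
    -- values of h
    have hval : ∀ x ∈ L, ∃ u : k, hh k F K x s = algebraMap k F u * (c.δ * (cj k F l)⁻¹) := by
      intro x hx
      obtain ⟨u, hu⟩ := hpol x hx x0 hx0
      rw [hl, c.hh_smul_right] at hu
      refine ⟨u, ?_⟩
      field_simp
      linear_combination hu
    have hph : ∀ x ∈ L, c.ph (hh k F K x s) = if hh k F K x s = 0 then 0 else - c.ph l := by
      intro x hx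
      split_ifs with h
      · rw [h, c.ph_zero]
      · obtain ⟨u, hu⟩ := hval x hx
        have hu0 : u ≠ 0 := by
          rintro rfl
          rw [map_zero, zero_mul] at hu
          exact h hu
        rw [hu, c.ph_k hu0, c.ph_δ, ph_inv_cj c hl0]
    have hsumL : ∑ x ∈ L, c.ph (hh k F K x s) =
        - c.ph l * ((L.filter (fun x => ¬ hh k F K x s = 0)).card : ℤ) := by
      rw [Finset.sum_congr rfl hph, Finset.sum_ite, Finset.sum_const_zero, zero_add,
        Finset.sum_const, nsmul_eq_mul, mul_comm]
    have hnorm0 : ∀ l' : F, c.ph (Algebra.norm F (algebraMap F K l' * s)) = c.ph l' := by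
      intro l'
      rw [norm_F_mul c l' hs, c.ph_cube]
    by_cases hall : ∀ x ∈ L, hh k F K x s = 0
    · -- L = F s
      have h1 : L.filter (fun x => ¬ hh k F K x s = 0) = ∅ := by
        rw [Finset.filter_eq_empty_iff]
        intro x hx
        rw [not_not]
        exact hall x hx
      rw [hsumL, h1, Finset.card_empty]
      have hinj : Function.Injective (fun l' : F => algebraMap F K l' * s) := by
        intro a b h
        exact (algebraMap F K).injective (mul_right_cancel₀ (c.CC_ne_zero hs) h)
      have hLF : L = Finset.univ.image (fun l' : F => algebraMap F K l' * s) := by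
        apply Finset.eq_of_subset_of_card_le
        · intro x hx
          obtain ⟨l', hl'⟩ := c.witt (hiso x hx) hs (hall x hx)
          exact Finset.mem_image.2 ⟨l', Finset.mem_univ _, hl'.symm⟩
        · rw [Finset.card_image_of_injective _ hinj, Finset.card_univ, c.card_F, hcard]
      have h2 : ∑ x ∈ L.erase 0, (if hh k F K x s = 0 then c.ph (Algebra.norm F x) else 0) = 0 := by
        have h3 : ∑ x ∈ L.erase 0, (if hh k F K x s = 0 then c.ph (Algebra.norm F x) else 0) =
            ∑ x ∈ L, c.ph (Algebra.norm F x) := by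
          rw [← Finset.add_sum_erase L _ h0, norm_zero' c, c.ph_zero, zero_add]
          apply Finset.sum_congr rfl
          intro x hx
          rw [if_pos (hall x (Finset.mem_of_mem_erase hx))]
        rw [h3, hLF, Finset.sum_image (fun a _ b _ h => hinj h), Finset.sum_congr rfl
          (fun l' _ => hnorm0 l'), c.sum_ph]
      rw [h2]
      simp
    · push Not at hall
      obtain ⟨x1, hx1, hx1s⟩ := hall
      obtain ⟨u1, hu1⟩ := hval x1 hx1
      have hu10 : u1 ≠ 0 := by
        rintro rfl
        rw [map_zero, zero_mul] at hu1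
        exact hx1s hu1
      set Z := L.filter (fun x => hh k F K x s = 0) with hZ
      have hx0Z : x0 ∈ Z := Finset.mem_filter.2 ⟨hx0, hx0s⟩
      have hq : 0 < Fintype.card k := Fintype.card_pos
      -- L = k x1 + Z
      have hcardZ : Z.card = Fintype.card k := by
        have hinj : Set.InjOn (fun p : k × K => algebraMap k K p.1 * x1 + p.2)
            ((Finset.univ ×ˢ Z : Finset (k × K)) : Set (k × K)) := by
          rintro ⟨u, z⟩ hz ⟨u', z'⟩ hz' h
          simp only [Finset.coe_product, Set.mem_prod, Finset.mem_coe, Finset.mem_univ,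
            true_and] at hz hz'
          simp only at h
          have h1 : hh k F K (algebraMap k K u * x1 + z) s =
              hh k F K (algebraMap k K u' * x1 + z') s := by rw [h]
          rw [hh_add_left, hh_add_left, hh_k_left c, hh_k_left c, (Finset.mem_filter.1 hz).2,
            (Finset.mem_filter.1 hz').2, add_zero, add_zero] at h1
          have h2 := (algebraMap k F).injective (mul_right_cancel₀ hx1s h1)
          rw [h2] at h
          exact Prod.ext h2 (add_left_cancel h)
        have himg : (Finset.univ ×ˢ Z : Finset (k × K)).image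
            (fun p : k × K => algebraMap k K p.1 * x1 + p.2) = L := by
          apply Finset.Subset.antisymm
          · intro x hx
            obtain ⟨⟨u, z⟩, hz, rfl⟩ := Finset.mem_image.1 hx
            simp only [Finset.mem_product, Finset.mem_univ, true_and] at hz
            exact hadd _ (hsmul u x1 hx1) _ (Finset.mem_filter.1 hz).1
          · intro x hx
            obtain ⟨u, hu⟩ := hval x hx
            refine Finset.mem_image.2 ⟨(u / u1, x - algebraMap k K (u / u1) * x1), ?_, by
              simp only; ring⟩
            simp only [Finset.mem_product, Finset.mem_univ, true_and]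
            refine Finset.mem_filter.2 ⟨hsub x hx _ (hsmul _ x1 hx1), ?_⟩
            rw [hlin, hh_k_left c, hu, hu1, map_div₀]
            have : algebraMap k F u1 ≠ 0 := (map_ne_zero _).2 hu10
            field_simp
            ring
        have h1 := Finset.card_image_of_injOn hinj
        rw [himg, hcard, Finset.card_product, Finset.card_univ, sq] at h1
        exact (Nat.eq_of_mul_eq_mul_left hq h1).symm
      have hinjk : Function.Injective (fun u : k => algebraMap k K u * x0) := by
        intro a b h
        exact (algebraMap k K).injective (mul_right_cancel₀ hx00 h)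
      have hZk : Z = Finset.univ.image (fun u : k => algebraMap k K u * x0) := by
        symm
        apply Finset.eq_of_subset_of_card_le
        · intro x hx
          obtain ⟨u, _, rfl⟩ := Finset.mem_image.1 hx
          refine Finset.mem_filter.2 ⟨hsmul u x0 hx0, ?_⟩
          rw [hh_k_left c, hx0s, mul_zero]
        · rw [Finset.card_image_of_injective _ hinjk, Finset.card_univ, hcardZ]
      have hcompl : ((L.filter (fun x => ¬ hh k F K x s = 0)).card : ℤ) =
          (Fintype.card k : ℤ) ^ 2 - Fintype.card k := by
        have h1 := Finset.card_filter_add_card_filter_not (s := L) (fun x => hh k F K x s = 0)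
        rw [← hZ, hcardZ, hcard] at h1
        have h2 : ((Fintype.card k + (L.filter (fun x => ¬ hh k F K x s = 0)).card : ℕ) : ℤ) =
          ((Fintype.card k ^ 2 : ℕ) : ℤ) := by rw [h1]
        push_cast at h2
        linarith
      have hsumZ : ∑ x ∈ L.erase 0, (if hh k F K x s = 0 then c.ph (Algebra.norm F x) else 0) =
          ((Fintype.card k : ℤ) - 1) * c.ph l := by
        have h3 : ∑ x ∈ L.erase 0, (if hh k F K x s = 0 then c.ph (Algebra.norm F x) else 0) =
            ∑ x ∈ Z, c.ph (Algebra.norm F x) := by
          rw [hZ, Finset.sum_filter, ← Finset.add_sum_erase L _ h0, norm_zero' c, c.ph_zero, ite_self,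
            zero_add]
        rw [h3, hZk, Finset.sum_image (fun a _ b _ h => hinjk h),
          ← Finset.add_sum_erase Finset.univ _ (Finset.mem_univ (0 : k)), map_zero, zero_mul,
          norm_zero' c, c.ph_zero, zero_add]
        have h4 : ∀ u ∈ Finset.univ.erase (0 : k),
            c.ph (Algebra.norm F (algebraMap k K u * x0)) = c.ph l := by
          intro u hu
          have hu0 := Finset.ne_of_mem_erase hu
          rw [IsScalarTower.algebraMap_apply k F K, hl, ← mul_assoc, ← map_mul, hnorm0,
            c.ph_k hu0]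
        rw [Finset.sum_congr rfl h4, Finset.sum_const, nsmul_eq_mul,
          Finset.card_erase_of_mem (Finset.mem_univ _), Finset.card_univ, Nat.cast_sub hq,
          Nat.cast_one]
      rw [hsumL, hcompl, hsumZ]
      ring

theorem goalLine : GoalLine := by
  intro k F K _ _ _ _ _ _ _ _ _ _ c L h0 hadd hsmul hcard hiso
  have h1 : ∑ x ∈ L, c.SS x = ∑ s ∈ CC k K, ∑ x ∈ L, c.ph (hh k F K x s) := by
    simp only [Ctx.SS]
    exact Finset.sum_comm
  rw [h1, Finset.sum_congr rfl (fun s hs => claim c L h0 hadd hsmul hcard hiso hs),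
    ← Finset.mul_sum, Finset.sum_comm]
  congr 1
  apply Finset.sum_congr rfl
  intro x hx
  have hx0 := Finset.ne_of_mem_erase hx
  split_ifs with hsp
  · obtain ⟨l, s, hl, hs, hxs⟩ := hsp
    rw [Finset.sum_eq_single s]
    · rw [if_pos ⟨l, hxs⟩]
    · intro s' hs' hne
      rw [if_neg]
      rintro ⟨l', hl'⟩
      exact hne (unique_s c hs hs' hl (hxs.symm.trans hl')).symm
    · intro h
      exact absurd hs h
  · apply Finset.sum_eq_zero
    intro s hs
    rw [if_neg]
    rintro ⟨l, hl⟩
    apply hsp
    refine ⟨l, s, ?_, hs, hl⟩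
    rintro rfl
    rw [map_zero, zero_mul] at hl
    exact hx0 hl

end Pool.Agent.Helper40.Hemi
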